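import Pool.Agent.H33.G.R_seed8.H499R2.CL.B
import Pool.Agent.H33.G.R_seed8.H499R2.CL.C
import Pool.Agent.H33.G.R_seed8.H499R2.CL.D
import Pool.Agent.H33.G.R_seed8.H499R2.CL.L
import Pool.Agent.H33.G.R_seed8.H499R2.CL.PBs

/-! Composition of stages for events which depend on the sums of the stages. -/

set_option autoImplicit false

namespace Pool.Agent.TH977.IP

open Pool.Agent.H320R2.PD Pool.Agent.H499R2.ND Finset Filter Topology

open Pool.Agent.H319R2.Lln (mu)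

theorem err_fun {κ : ℝ} (hκ : 0 < κ) (C : ℝ) {ε : ℝ} (hε : 0 < ε) : ∃ L0 : ℝ, ∀ t : ℝ, L0 ≤ t →
    C / t + 3 * Real.exp (-(κ * t / 12800)) + 6 * Real.exp (-(t / 5)) + 2 * Real.exp (-(t / 10)) ≤ ε := by
  have h1 : Tendsto (fun t : ℝ => C / t) atTop (𝓝 0) := tendsto_const_nhds.div_atTop tendsto_id
  have hexp : ∀ c : ℝ, 0 < c → Tendsto (fun t : ℝ => Real.exp (-(c * t))) atTop (𝓝 0) := by
    intro c hc
    apply Real.tendsto_exp_atBot.comp
    exact tendsto_neg_atTop_atBot.comp (tendsto_id.const_mul_atTop hc)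
  have h2 : Tendsto (fun t : ℝ => 3 * Real.exp (-(κ * t / 12800))) atTop (𝓝 0) := by
    have := (hexp (κ / 12800) (by positivity)).const_mul 3
    rw [mul_zero] at this
    refine this.congr fun t => ?_
    congr 3
    ring
  have h3 : Tendsto (fun t : ℝ => 6 * Real.exp (-(t / 5))) atTop (𝓝 0) := by
    have := (hexp (1 / 5) (by positivity)).const_mul 6
    rw [mul_zero] at this
    refine this.congr fun t => ?_
    congr 3
    ring
  have h4 : Tendsto (fun t : ℝ => 2 * Real.exp (-(t / 10))) atTop (𝓝 0) := by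
    have := (hexp (1 / 10) (by positivity)).const_mul 2
    rw [mul_zero] at this
    refine this.congr fun t => ?_
    congr 3
    ring
  have h5 := ((h1.add h2).add h3).add h4
  simp only [add_zero] at h5
  obtain ⟨L0, hL0⟩ := eventually_atTop.1 (h5.eventually (gt_mem_nhds hε))
  exact ⟨L0, fun t ht => (hL0 t ht).le⟩

theorem e4_aux {t Cm r κ : ℝ} (hr : 0 < r) (hκ : 0 < κ) (h : r ^ 2 = t) :
    t * (Cm * ((2 / r) ^ 4 + (1 / (κ * r)) ^ 4)) = (Cm * (16 + 1 / κ ^ 4)) / t := by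
  subst h
  field_simp
  norm_num
  left
  ring

/-- the error of one stage of length at least `κ log A` -/
theorem err_k {κ : ℝ} (hκ : 0 < κ) {ε : ℝ} (hε : 0 < ε) : ∃ L1 : ℝ, 1000 ≤ L1 ∧ ∀ (d : ℤ) (A : ℝ), 0 < A →
    L1 ≤ Real.log A → |(d : ℝ)| ≤ Real.exp (Real.log A / 10) → ∀ k m m' : ℕ, (m : ℝ) ^ 2 ≤ Real.log A →
    κ * Real.log A ≤ k → (k : ℝ) ≤ Real.log A / 2 → m' = ⌊Real.sqrt (0.8 * Real.log A)⌋₊ →
    1 ≤ k ∧ m' ≤ k ∧ Err d A k m m' ≤ ε := by
  obtain ⟨Cm, hCm, hmix⟩ := mix 4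
  obtain ⟨L0, hL0⟩ := err_fun hκ (2 * (Cm * (16 + 1 / κ ^ 4))) hε
  refine ⟨max (max 1000 L0) (max (1 / κ ^ 2) (1 / κ)), (le_max_left _ _).trans (le_max_left _ _), ?_⟩
  intro d A hA ht1 hd k m m' hm hk2 hk1 hm'
  set t := Real.log A with htdef
  have ht : 1000 ≤ t := ((le_max_left _ _).trans (le_max_left _ _)).trans ht1
  have htL0 : L0 ≤ t := ((le_max_right _ _).trans (le_max_left _ _)).trans ht1
  have htκ2 : 1 / κ ^ 2 ≤ t := ((le_max_left _ _).trans (le_max_right _ _)).trans ht1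
  have htκ : 1 / κ ≤ t := ((le_max_right _ _).trans (le_max_right _ _)).trans ht1
  have htpos : 0 < t := by linarith
  have hexpA : Real.exp t = A := Real.exp_log hA
  have hkpos : (1 : ℝ) ≤ k := by
    rw [div_le_iff₀ hκ] at htκ
    linarith
  have hk1N : 1 ≤ k := by exact_mod_cast hkpos
  set r := Real.sqrt t with hr
  have hrsq : r ^ 2 = t := Real.sq_sqrt htpos.le
  have hr30 : 30 ≤ r := by
    apply Real.le_sqrt_of_sq_le; linarith
  have hrpos : 0 < r := by linarith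
  have hκr : 1 ≤ κ * r := by
    have h1 : 1 / κ ≤ r := by
      apply Real.le_sqrt_of_sq_le
      rw [div_pow, one_pow]
      exact htκ2
    rw [div_le_iff₀ hκ] at h1
    linarith
  have hmr : (m : ℝ) ≤ r := Real.le_sqrt_of_sq_le hm
  have hs8 : Real.sqrt (0.8 * t) ≥ 0.8 * r := by
    apply Real.le_sqrt_of_sq_le
    rw [mul_pow, hrsq]; linarith
  have hs8' : Real.sqrt (0.8 * t) ≤ r := Real.sqrt_le_sqrt (by linarith)
  have hm'1 : r / 2 ≤ m' := by
    rw [hm']; linarith [Nat.lt_floor_add_one (Real.sqrt (0.8 * t))]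
  have hm'2 : (m' : ℝ) ≤ r := by
    rw [hm']; exact (Nat.floor_le (Real.sqrt_nonneg _)).trans hs8'
  have hm'pos : 1 ≤ m' := by
    have : (1 : ℝ) ≤ m' := by linarith
    exact_mod_cast this
  have hkr : κ * r * r ≤ k := by
    have : κ * r * r = κ * t := by rw [← hrsq]; ring
    linarith
  have hm'k : m' ≤ k := by
    have : (m' : ℝ) ≤ k := by nlinarith
    exact_mod_cast this
  refine ⟨hk1N, hm'k, ?_⟩
  -- exponentially small quantities
  have hsmall : (2 : ℝ) ^ (41 * k / 20) * (2 * 3 ^ m / A) ≤ 2 * Real.exp (-(t / 5)) := by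
    have h1 := pow_tm_le htpos.le hk1
    have h2 := pow_m_le ht hm
    have h3 : (2 : ℝ) ^ (41 * k / 20) * (2 * 3 ^ m / A)
        ≤ Real.exp (0.7106 * t) * (2 * Real.exp (0.05 * t) / Real.exp t) := by
      rw [← hexpA]
      apply mul_le_mul h1 _ (by positivity) (Real.exp_pos _).le
      apply div_le_div_of_nonneg_right _ (Real.exp_pos _).le
      linarith
    have h4 : Real.exp (0.7106 * t) * (2 * Real.exp (0.05 * t) / Real.exp t)
        = 2 * Real.exp (0.7106 * t + 0.05 * t - t) := by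
      rw [Real.exp_sub, Real.exp_add]; ring
    rw [h4] at h3
    refine h3.trans ?_
    apply mul_le_mul_of_nonneg_left _ (by norm_num)
    apply Real.exp_le_exp.2
    linarith
  have hexpsmall : Real.exp (-(t / 5)) ≤ 1 / 2 := by
    have h1 := Real.add_one_le_exp (t / 5)
    rw [Real.exp_neg, inv_eq_one_div]
    apply one_div_le_one_div_of_le (by norm_num)
    linarith
  have hsmall1 : (2 : ℝ) ^ (41 * k / 20) * (2 * 3 ^ m / A) ≤ 1 := by linarith
  have h3mA : 0 ≤ (2 * 3 ^ m / A : ℝ) := by positivity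
  have hone : (2 * 3 ^ m / A : ℝ) ≤ 2 * Real.exp (-(t / 5)) := by
    have : (1 : ℝ) ≤ 2 ^ (41 * k / 20) := one_le_pow₀ (by norm_num)
    nlinarith
  -- mixing
  have hδ := hmix k m m' (3 * k) hk1N hm'pos hm'k (le_refl _)
  set δ := ∑ T ∈ range (k * (3 * k) + 1), dev (FWT (3 * k) k T) wwt (fun w => (Wo w : ℤ)) (k + m) m'
    with hδdef
  have hδnn : 0 ≤ δ := sum_nonneg fun _ _ => sum_nonneg fun _ _ => abs_nonneg _
  have hδ2 : δ ≤ (Cm * (16 + 1 / κ ^ 4)) / t := by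
    have e1 : ((k : ℝ) + m) ≤ t := by nlinarith
    have e2 : (1 / (m' : ℝ)) ^ 4 ≤ (2 / r) ^ 4 := by
      apply pow_le_pow_left₀ (by positivity)
      rw [div_le_div_iff₀ (by exact_mod_cast hm'pos) hrpos]
      linarith
    have e3 : ((m : ℝ) / k) ^ 4 ≤ (1 / (κ * r)) ^ 4 := by
      apply pow_le_pow_left₀ (by positivity)
      rw [div_le_div_iff₀ (by linarith) (by positivity)]
      nlinarith [mul_le_mul_of_nonneg_right hmr (by positivity : (0 : ℝ) ≤ κ * r)]
    have e4 := e4_aux (Cm := Cm) hrpos hκ hrsq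
    calc δ ≤ (k + m) * (Cm * ((1 / (m' : ℝ)) ^ 4 + ((m : ℝ) / k) ^ 4)) := hδ
      _ ≤ t * (Cm * ((2 / r) ^ 4 + (1 / (κ * r)) ^ 4)) := by
          apply mul_le_mul e1 _ (by positivity) htpos.le
          apply mul_le_mul_of_nonneg_left _ hCm.le
          linarith
      _ = _ := e4
  -- mass
  have hmass := mass_GW k
  have hmass2 : 3 * Real.exp (-(k / 12800 : ℝ)) ≤ 3 * Real.exp (-(κ * t / 12800)) := by
    have h1 : Real.exp (-(k / 12800 : ℝ)) ≤ Real.exp (-(κ * t / 12800)) := by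
      apply Real.exp_le_exp.2
      linarith
    linarith
  unfold Err
  rw [← hδdef]
  have hd0 : 0 ≤ |(d : ℝ)| := abs_nonneg _
  have f1 : (1 + 2 ^ (41 * k / 20) * (2 * 3 ^ m / A)) * δ ≤ 2 * δ :=
    mul_le_mul_of_nonneg_right (by linarith) hδnn
  have f2 : (1 + (|(d : ℝ)| + 2) * 2 ^ (41 * k / 20)) * (2 * 3 ^ m / A)
      ≤ 6 * Real.exp (-(t / 5)) + 2 * Real.exp (-(t / 10)) := by
    have g1 : (1 + (|(d : ℝ)| + 2) * 2 ^ (41 * k / 20)) * (2 * 3 ^ m / A)
        = (2 * 3 ^ m / A) + (|(d : ℝ)| + 2) * (2 ^ (41 * k / 20) * (2 * 3 ^ m / A)) := by ring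
    have g2 := mul_le_mul_of_nonneg_left hsmall (by linarith : 0 ≤ |(d : ℝ)| + 2)
    have g3 : |(d : ℝ)| * Real.exp (-(t / 5)) ≤ Real.exp (-(t / 10)) := by
      calc |(d : ℝ)| * Real.exp (-(t / 5)) ≤ Real.exp (t / 10) * Real.exp (-(t / 5)) :=
            mul_le_mul_of_nonneg_right hd (Real.exp_pos _).le
        _ = Real.exp (-(t / 10)) := by rw [← Real.exp_add]; congr 1; ring
    rw [g1]
    nlinarith [g2, g3, hone]
  have hL := hL0 t htL0
  have e5 : 2 * (Cm * (16 + 1 / κ ^ 4)) / t = 2 * ((Cm * (16 + 1 / κ ^ 4)) / t) := by ring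
  rw [e5] at hL
  linarith

theorem next_k {A : ℝ} (hA : 0 < A) {k T : ℕ} (h2 : (k : ℝ) ≤ Real.log A / 2)
    (h3 : |(T : ℝ) - 2 * k| ≤ k / 20) : 0.8 * Real.log A ≤ Real.log (A * 3 ^ k / 2 ^ T) := by
  have hlog : Real.log (A * 3 ^ k / 2 ^ T) = Real.log A - (T * Real.log 2 - k * Real.log 3) := by
    rw [Real.log_div (by positivity) (by positivity), Real.log_mul (by positivity) (by positivity),
      Real.log_pow, Real.log_pow]
    ring
  have hl2' := Real.log_two_lt_d9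
  have hl2 := Real.log_two_gt_d9
  have hl3' := log3_ge
  have hk0 : (0 : ℝ) ≤ k := Nat.cast_nonneg k
  obtain ⟨h4, h5⟩ := abs_le.1 h3
  have hT2 : (T : ℝ) ≤ 41 / 20 * k := by linarith
  have a2 : (T : ℝ) * Real.log 2 ≤ 41 / 20 * k * Real.log 2 :=
    mul_le_mul_of_nonneg_right hT2 (by linarith)
  have a4 : (k : ℝ) * (19 / 12 * Real.log 2) ≤ k * Real.log 3 :=
    mul_le_mul_of_nonneg_left hl3' hk0
  have a6 : (k : ℝ) * Real.log 2 ≤ k * 0.6931471808 := mul_le_mul_of_nonneg_left hl2'.le hk0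
  rw [hlog]
  nlinarith

/-- starting points whose stages have sums with the property `E` and whose endpoint is in `S` -/
def SE (d : ℤ) (S : Set ℤ) : List ℕ → (List ℕ → Prop) → Set ℤ
  | [], E => {x | E [] ∧ x ∈ S}
  | k :: ks, E => {M | ∀ w : List ℕ, w.length = k → (∀ a ∈ w, 1 ≤ a) → ∀ x : ℤ, Odd x → Vw d w M x →
      x ∈ SE d S ks (fun l => E (w.sum :: l))}

open Classical in
/-- weight of the words whose stages have sums with the property `E` -/
noncomputable def WE (cap : ℕ) : List ℕ → (List ℕ → Prop) → ℝ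
  | [], E => if E [] then 1 else 0
  | k :: ks, E => ∑ w ∈ FW cap k, wwt w * WE cap ks (fun l => E (w.sum :: l))

theorem WE_nonneg (cap : ℕ) (ks : List ℕ) : ∀ E : List ℕ → Prop, 0 ≤ WE cap ks E := by
  induction ks with
  | nil =>
    intro E
    unfold WE
    split_ifs
    · exact zero_le_one
    · exact le_rfl
  | cons k ks ih =>
    intro E
    unfold WE
    exact sum_nonneg fun w _ => mul_nonneg (wwt_nonneg w) (ih _)

/-- the scale `A` is good for the list of lengths -/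
def Gk (d : ℤ) (κ : ℝ) (P : ℝ → Prop) (N : ℕ) (L1 : ℝ) : List ℕ → ℝ → Prop
  | [], A => P A
  | k :: ks, A => L1 ≤ Real.log A ∧ |(d : ℝ)| ≤ Real.exp (Real.log A / 10) ∧ κ * Real.log A ≤ k ∧
      (k : ℝ) ≤ Real.log A / 2 ∧ ∀ T : ℕ, N * |(T : ℝ) - 2 * k| ≤ k → Gk d κ P N L1 ks (A * 3 ^ k / 2 ^ T)

theorem mass_fun {κ : ℝ} (hκ : 0 < κ) {N : ℕ} (hN : 20 ≤ N) {ε : ℝ} (hε : 0 < ε) : ∃ L0 : ℝ,
    ∀ t : ℝ, L0 ≤ t → 0 < t → ∀ k : ℕ, κ * t ≤ k →
      3 * Real.exp (-(((k : ℝ) / N) ^ 2 / (32 * k))) ≤ ε := by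
  have hNR : (20 : ℝ) ≤ N := by exact_mod_cast hN
  have h1 : Tendsto (fun t : ℝ => 3 * Real.exp (-(κ / (32 * (N : ℝ) ^ 2) * t))) atTop (𝓝 (3 * 0)) := by
    apply Tendsto.const_mul
    apply Real.tendsto_exp_atBot.comp
    exact tendsto_neg_atTop_atBot.comp (tendsto_id.const_mul_atTop (by positivity))
  rw [mul_zero] at h1
  obtain ⟨L0, hL0⟩ := eventually_atTop.1 (h1.eventually (gt_mem_nhds hε))
  refine ⟨L0, fun t ht htp k hk => ?_⟩
  refine le_trans ?_ (hL0 t ht).le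
  have hk0 : 0 < (k : ℝ) := lt_of_lt_of_le (by positivity) hk
  apply mul_le_mul_of_nonneg_left _ (by norm_num)
  apply Real.exp_le_exp.2
  rw [neg_le_neg_iff]
  have e : ((k : ℝ) / N) ^ 2 / (32 * k) = k / (32 * (N:ℝ) ^ 2) := by field_simp
  rw [e, div_mul_eq_mul_div]
  exact div_le_div_of_nonneg_right hk (by positivity)

/-- composition of stages -/
theorem comp {κ : ℝ} (hκ : 0 < κ) {N : ℕ} (hN : 20 ≤ N) {ε : ℝ} (hε : 0 < ε) : ∃ L1 : ℝ, 1000 ≤ L1 ∧
    ∀ d : ℤ, Odd d → IsCoprime d 3 → ∀ (S : Set ℤ) (ρ : ℝ) (P : ℝ → Prop), 0 ≤ ρ →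
    (∀ A, 0 < A → P A → ∀ m : ℕ, (m : ℝ) ^ 2 ≤ Real.log A → PB S A m ρ) →
    ∀ (ks : List ℕ) (cap : ℕ), (∀ k ∈ ks, 3 * k ≤ cap) → ∀ (E : List ℕ → Prop) (A : ℝ), 0 < A →
      Gk d κ P N L1 ks A → ∀ m : ℕ, (m : ℝ) ^ 2 ≤ Real.log A →
        PB (SE d S ks E) A m (ρ * WE cap ks E + ks.length * ε) := by
  classical
  obtain ⟨La, hLa, herr⟩ := err_k hκ (show 0 < ε / 2 by positivity)
  obtain ⟨Lb, hmassf⟩ := mass_fun hκ hN (show 0 < ε / 2 by positivity)
  refine ⟨max La Lb, hLa.trans (le_max_left _ _), ?_⟩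
  intro d hd hd3 S ρ P hρ hP ks cap
  have hNR : (20 : ℝ) ≤ N := by exact_mod_cast hN
  induction ks with
  | nil =>
    intro _ E A hA hG m hm
    have h := hP A hA hG m hm
    by_cases hE : E []
    · have e : SE d S [] E = S := by
        ext x
        unfold SE
        exact ⟨fun h => h.2, fun h => ⟨hE, h⟩⟩
      rw [e]
      simpa [WE, hE] using h
    · intro u v hu
      have e : cls (SE d S [] E) A (2 * A) m u v = ∅ := by
        rw [Finset.eq_empty_iff_forall_notMem]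
        intro x hx
        rw [mem_cls] at hx
        exact hE hx.2.2.1.1
      rw [e]
      simp [WE, hE]
  | cons k ks ih =>
    intro hcap E A hA hG m hm
    obtain ⟨hG1, hGd, hG2, hG3, hG4⟩ := hG
    have hcapk : 3 * k ≤ cap := hcap k (by simp)
    have hcap' : ∀ k' ∈ ks, 3 * k' ≤ cap := fun k' hk' => hcap k' (by simp [hk'])
    have hALa : La ≤ Real.log A := (le_max_left _ _).trans hG1
    have hALb : Lb ≤ Real.log A := (le_max_right _ _).trans hG1
    have hAL : 1000 ≤ Real.log A := hLa.trans hALa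
    set t := Real.log A with ht
    set m' := ⌊Real.sqrt (0.8 * t)⌋₊ with hm'
    obtain ⟨hk1, hm'k, hp⟩ := herr d A hA hALa hGd k m m' hm hG2 hG3 rfl
    have hkpos : (0:ℝ) < k := by exact_mod_cast hk1
    set a : ℝ := (k:ℝ) / N with ha
    have ha0 : 0 < a := by positivity
    have hak : a ≤ k / 20 := by
      rw [ha]
      exact div_le_div_of_nonneg_left hkpos.le (by norm_num) hNR
    obtain ⟨Tl, Tm, hTm, hT, hmass⟩ := mass_win hk1 ha0 hak
    have hmass' : 1 - ∑ w ∈ GW (3 * k) k Tl Tm, wwt w ≤ ε / 2 :=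
      hmass.trans (hmassf t hALb (by linarith) k hG2)
    have hm'sq : (m' : ℝ) ^ 2 ≤ 0.8 * t := by
      have h1 : (m' : ℝ) ≤ Real.sqrt (0.8 * t) := Nat.floor_le (Real.sqrt_nonneg _)
      have h2 : Real.sqrt (0.8 * t) ^ 2 = 0.8 * t := Real.sq_sqrt (by positivity)
      have h3 : (0:ℝ) ≤ m' := by positivity
      nlinarith [Real.sqrt_nonneg (0.8 * t)]
    have hstage := stageW hd hd3 (S := SE d S (k :: ks) E)
      (fun T => SE d S ks (fun l => E (T :: l))) hA (k := k) (m := m) (m' := m') (Tl := Tl) (Tm := Tm)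
      hk1 hm'k hTm (ρ := fun T => ρ * WE cap ks (fun l => E (T :: l)) + ks.length * ε) ?_ ?_
    · refine PB_mono hA ?_ hstage
      have hw1 : ∑ w ∈ GW (3 * k) k Tl Tm, wwt w ≤ 1 := by
        refine le_trans (sum_le_sum_of_subset_of_nonneg (filter_subset _ _)
          (fun w _ _ => wwt_nonneg w)) (sum_wwt_le (3 * k) k)
      have e1 : ∑ w ∈ GW (3 * k) k Tl Tm, wwt w * (ρ * WE cap ks (fun l => E (w.sum :: l)) + ks.length * ε) =
          ρ * ∑ w ∈ GW (3 * k) k Tl Tm, wwt w * WE cap ks (fun l => E (w.sum :: l)) +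
            (∑ w ∈ GW (3 * k) k Tl Tm, wwt w) * (ks.length * ε) := by
        rw [sum_mul, mul_sum, ← sum_add_distrib]
        apply sum_congr rfl
        intro w _
        ring
      have e2 : (∑ w ∈ GW (3 * k) k Tl Tm, wwt w) * (ks.length * ε) ≤ 1 * (ks.length * ε) :=
        mul_le_mul_of_nonneg_right hw1 (by positivity)
      have e3 : ∑ w ∈ GW (3 * k) k Tl Tm, wwt w * WE cap ks (fun l => E (w.sum :: l)) ≤
          WE cap (k :: ks) E := by
        have hsub : GW (3 * k) k Tl Tm ⊆ FW cap k := by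
          intro w hw
          have hw' := (mem_filter.1 hw).1
          rw [mem_FW] at hw' ⊢
          exact ⟨hw'.1, fun e he => ⟨(hw'.2 e he).1, (hw'.2 e he).2.trans hcapk⟩⟩
        exact sum_le_sum_of_subset_of_nonneg hsub
          (fun w _ _ => mul_nonneg (wwt_nonneg w) (WE_nonneg _ _ _))
      have e3' := mul_le_mul_of_nonneg_left e3 hρ
      have e4 : (((k :: ks).length : ℕ) : ℝ) * ε = ks.length * ε + ε := by
        rw [List.length_cons]
        push_cast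
        ring
      rw [e1, e4]
      linarith
    · intro w hw M x hM hx _ _ hMS hV
      have hw' := (mem_filter.1 hw).1
      rw [mem_FW] at hw'
      exact hMS w hw'.1 (fun a ha => (hw'.2 a ha).1) x hx hV
    · intro T hTl hTm'
      have hTa : |(T:ℝ) - 2 * k| ≤ a := (hT T).1 ⟨hTl, hTm'⟩
      have hTk : |(T:ℝ) - 2 * k| ≤ k / 20 := hTa.trans hak
      have n1 := next_k hA hG3 hTk
      rw [← ht] at n1
      have hAT : 0 < A * 3 ^ k / 2 ^ T := by positivity
      have hGd' := hG4 T (by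
        rw [ha, le_div_iff₀ (by positivity)] at hTa
        linarith)
      exact ih hcap' (fun l => E (T :: l)) (A * 3 ^ k / 2 ^ T) hAT hGd' m' (hm'sq.trans n1)

end Pool.Agent.TH977.IP
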