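import Pool.Agent.H55.G.R_seed8.TH977.IP.Upper

/-! From windows to counts. -/

set_option autoImplicit false

namespace Pool.Agent.TH977.IP

open Pool.Agent.H320R2.PD Pool.Agent.H499R2.ND Finset Filter Topology

open Pool.Agent.H319R2.Lln (mu)

theorem win_count {Z : Set ℤ} {r : ℝ} (hr : 0 ≤ r) (I : ℕ) : ∀ X : ℝ, 0 < X →
    (∀ i < I, PB Z (X / 2 ^ (i + 1)) 0 r) →
    ((cls Z 0 X 0 1 0).card : ℝ) ≤ r * X / 2 + (X / 2 ^ I + 1) := by
  classical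
  induction I with
  | zero =>
    intro X hX _
    have h := cls_card_le Z hX.le 0 isCoprime_one_left 0
    rw [pow_zero, mul_one, sub_zero] at h
    rw [pow_zero, div_one]
    have : 0 ≤ r * X / 2 := by positivity
    linarith
  | succ I ih =>
    intro X hX h
    have hsub : cls Z 0 X 0 1 0 ⊆ cls Z 0 (X / 2) 0 1 0 ∪ cls Z (X / 2) (2 * (X / 2)) 0 1 0 := by
      intro x hx
      rw [mem_cls] at hx
      rw [mem_union, mem_cls, mem_cls]
      rcases lt_or_ge (x : ℝ) (X / 2) with h1 | h1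
      · exact Or.inl ⟨⟨hx.1.1, h1⟩, hx.2⟩
      · exact Or.inr ⟨⟨h1, by linarith [hx.1.2]⟩, hx.2⟩
    have h1 : ((cls Z 0 X 0 1 0).card : ℝ)
        ≤ (cls Z 0 (X / 2) 0 1 0).card + (cls Z (X / 2) (2 * (X / 2)) 0 1 0).card := by
      exact_mod_cast (card_le_card hsub).trans (card_union_le _ _)
    have h2 := ih (X / 2) (by positivity) (fun i hi => by
      have h3 := h (i + 1) (by omega)
      have e : X / 2 / 2 ^ (i + 1) = X / 2 ^ (i + 1 + 1) := by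
        rw [pow_succ (2 : ℝ) (i + 1), mul_comm ((2 : ℝ) ^ (i + 1)) 2, ← div_div]
      rw [e]; exact h3)
    have h3 := h 0 (by omega) 1 0 isCoprime_one_left
    rw [zero_add, pow_one, pow_zero, mul_one] at h3
    have h4 : X / 2 / 2 ^ I = X / 2 ^ (I + 1) := by
      rw [pow_succ (2 : ℝ) I, mul_comm ((2 : ℝ) ^ I) 2, ← div_div]
    rw [h4] at h2
    linarith

theorem law_upper {κ : ℝ} (hκ : 0 < κ) (hκ1 : κ ≤ 1) {ε : ℝ} (hε : 0 < ε) : ∃ N0 : ℕ, ∀ N : ℕ, N0 ≤ N →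
    ∀ d : ℤ, Odd d → IsCoprime d 3 → |(d : ℝ)| ≤ Real.exp (κ * Real.log N / 20) →
    ∀ (S : Set ℤ) (ρ : ℝ), 0 ≤ ρ → ρ ≤ 2 →
    (∀ A : ℝ, 0 < A → κ * Real.log N / 2 ≤ Real.log A → ∀ m : ℕ, (m : ℝ) ^ 2 ≤ Real.log A → PB S A m ρ) →
    ∀ bs : List ℕ, (∀ b ∈ bs, κ * Real.log N ≤ b) →
    ((bs.sum : ℕ) : ℝ) ≤ (1 - κ) * Real.log N / (2 * mu) → ∀ E : List ℕ → Prop,
      ((cls (ZE d S bs E) 0 (N + 1) 0 1 0).card : ℝ) ≤
        (ρ * TJ.PP.real {ω : ℕ → ℕ | E (stf bs fun j => ω j + 1)} / 2 + ε) * N := by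
  obtain ⟨L0, hL0, hup⟩ := upper hκ hκ1 (show 0 < ε / 4 by positivity)
  obtain ⟨I, hI⟩ := exists_pow_lt_of_lt_one (by positivity : 0 < ε / 4) (by norm_num : (1 / 2 : ℝ) < 1)
  refine ⟨max (max ⌈Real.exp L0⌉₊ ⌈Real.exp (8 * (1 + I) / κ)⌉₊) (max 1 ⌈(4 + ε) * 4 / ε⌉₊), ?_⟩
  intro N hN d hd hd3 hdL S ρ hρ hρ2 hPB bs hbs hsum E
  have hN1 : 1 ≤ N := ((le_max_left _ _).trans (le_max_right _ _)).trans hN
  have hNR : (1 : ℝ) ≤ N := by exact_mod_cast hN1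
  have hNpos : (0 : ℝ) < N := by linarith
  have hNa : Real.exp L0 ≤ N := by
    refine (Nat.le_ceil _).trans ?_
    exact_mod_cast ((le_max_left _ _).trans (le_max_left _ _)).trans hN
  have hNb : Real.exp (8 * (1 + I) / κ) ≤ N := by
    refine (Nat.le_ceil _).trans ?_
    exact_mod_cast ((le_max_right _ _).trans (le_max_left _ _)).trans hN
  have hNc : (4 + ε) * 4 / ε ≤ N := by
    refine (Nat.le_ceil _).trans ?_
    exact_mod_cast ((le_max_right _ _).trans (le_max_right _ _)).trans hN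
  set L := Real.log N with hL
  have hLa : L0 ≤ L := (Real.le_log_iff_exp_le hNpos).2 hNa
  have hLb : 8 * (1 + I) / κ ≤ L := (Real.le_log_iff_exp_le hNpos).2 hNb
  rw [div_le_iff₀ hκ] at hLb
  set μ : ℝ := TJ.PP.real {ω : ℕ → ℕ | E (stf bs fun j => ω j + 1)} with hμ
  have hμ0 : 0 ≤ μ := MeasureTheory.measureReal_nonneg
  have hμ1 : μ ≤ 1 := MeasureTheory.measureReal_le_one
  have hwin : ∀ i < I, PB (ZE d S bs E) (((N : ℝ) + 1) / 2 ^ (i + 1)) 0 (ρ * μ + ε / 4) := by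
    intro i hi
    have hpos : 0 < ((N : ℝ) + 1) / 2 ^ (i + 1) := by positivity
    have hlog : Real.log (((N : ℝ) + 1) / 2 ^ (i + 1)) = Real.log (N + 1) - (i + 1) * Real.log 2 := by
      rw [Real.log_div (by positivity) (by positivity), Real.log_pow]
      push_cast
      ring
    have h1 : L ≤ Real.log (N + 1) := Real.log_le_log hNpos (by linarith)
    have h2 : Real.log (N + 1) ≤ L + 1 := by
      have h3 : Real.log (N + 1) ≤ Real.log (2 * N) := Real.log_le_log (by positivity) (by linarith)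
      rw [Real.log_mul (by norm_num) hNpos.ne'] at h3
      have := Real.log_two_lt_d9
      linarith
    have h3 : ((i : ℝ) + 1) * Real.log 2 ≤ I := by
      have h4 : (i : ℝ) + 1 ≤ I := by exact_mod_cast hi
      have h5 := Real.log_two_lt_d9
      have h6 := Real.log_pos (by norm_num : (1 : ℝ) < 2)
      nlinarith
    have h4 : 0 ≤ ((i : ℝ) + 1) * Real.log 2 := by
      have := Real.log_pos (by norm_num : (1 : ℝ) < 2)
      positivity
    have hI0 : (0 : ℝ) ≤ I := Nat.cast_nonneg _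
    have habs : |Real.log (((N : ℝ) + 1) / 2 ^ (i + 1)) - L| ≤ κ * L / 8 := by
      rw [hlog, abs_le]
      constructor <;> linarith
    apply hup L hLa d hd hd3 hdL S ρ hρ hPB bs hbs hsum E _ hpos habs 0
    have h5 := (abs_le.1 habs).1
    have h6 : 0 ≤ L := by linarith
    have h7 : κ * L ≤ L := by nlinarith
    simp only [Nat.cast_zero, ne_eq, OfNat.ofNat_ne_zero, not_false_eq_true, zero_pow]
    linarith
  have h1 := win_count (by positivity : 0 ≤ ρ * μ + ε / 4) I ((N : ℝ) + 1) (by positivity) hwin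
  refine h1.trans ?_
  have h2 : ((N : ℝ) + 1) / 2 ^ I ≤ ε / 4 * (N + 1) := by
    have e : ((N : ℝ) + 1) / 2 ^ I = (1 / 2) ^ I * (N + 1) := by
      rw [one_div, inv_pow, div_eq_inv_mul]
    rw [e]
    exact mul_le_mul_of_nonneg_right hI.le (by positivity)
  rw [div_le_iff₀ hε] at hNc
  have h3 : ρ * μ ≤ 2 := by nlinarith
  nlinarith

/-- two-sided law for a part of a set of full mass -/
theorem law {κ : ℝ} (hκ : 0 < κ) (hκ1 : κ ≤ 1) {ε : ℝ} (hε : 0 < ε) : ∃ N0 : ℕ, ∀ N : ℕ, N0 ≤ N →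
    ∀ d : ℤ, Odd d → IsCoprime d 3 → |(d : ℝ)| ≤ Real.exp (κ * Real.log N / 20) →
    ∀ (S S' : Set ℤ) (ρ ρ' : ℝ), 0 ≤ ρ → 0 ≤ ρ' → ρ + ρ' ≤ 2 →
    (∀ A : ℝ, 0 < A → κ * Real.log N / 2 ≤ Real.log A → ∀ m : ℕ, (m : ℝ) ^ 2 ≤ Real.log A → PB S A m ρ) →
    (∀ A : ℝ, 0 < A → κ * Real.log N / 2 ≤ Real.log A → ∀ m : ℕ, (m : ℝ) ^ 2 ≤ Real.log A → PB S' A m ρ') →
    ∀ bs : List ℕ, (∀ b ∈ bs, κ * Real.log N ≤ b) →
    ((bs.sum : ℕ) : ℝ) ≤ (1 - κ) * Real.log N / (2 * mu) →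
    ((ρ + ρ') / 2 - ε) * N ≤ ((cls (ZE d (S ∪ S') bs fun _ => True) 0 (N + 1) 0 1 0).card : ℝ) →
    ∀ E : List ℕ → Prop, MeasurableSet {ω : ℕ → ℕ | E (stf bs fun j => ω j + 1)} →
      |((cls (ZE d S bs E) 0 (N + 1) 0 1 0).card : ℝ) -
        ρ / 2 * TJ.PP.real {ω : ℕ → ℕ | E (stf bs fun j => ω j + 1)} * N| ≤ 4 * ε * N := by
  classical
  obtain ⟨N0, hN0⟩ := law_upper hκ hκ1 hε
  refine ⟨N0 + 1, ?_⟩
  intro N hN d hd hd3 hdL S S' ρ ρ' hρ hρ' hρρ hPB hPB' bs hbs hsum hcount E hE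
  have hNN : N0 ≤ N := by omega
  have hNpos : (0 : ℝ) < N := by
    have : 1 ≤ N := by omega
    have : (1 : ℝ) ≤ N := by exact_mod_cast this
    linarith
  set μ : ℝ := TJ.PP.real {ω : ℕ → ℕ | E (stf bs fun j => ω j + 1)} with hμ
  have hμ0 : 0 ≤ μ := MeasureTheory.measureReal_nonneg
  have hμc : TJ.PP.real {ω : ℕ → ℕ | ¬ E (stf bs fun j => ω j + 1)} = 1 - μ := by
    rw [hμ, ← MeasureTheory.probReal_compl_eq_one_sub hE]
    rfl
  have h1 := hN0 N hNN d hd hd3 hdL S ρ hρ (by linarith) hPB bs hbs hsum E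
  have h2 := hN0 N hNN d hd hd3 hdL S' ρ' hρ' (by linarith) hPB' bs hbs hsum E
  have h3 := hN0 N hNN d hd hd3 hdL (S ∪ S') (ρ + ρ') (by positivity) hρρ
    (fun A hA hL m hm => PB_union (hPB A hA hL m hm) (hPB' A hA hL m hm)) bs hbs hsum (fun l => ¬ E l)
  rw [hμc] at h3
  rw [← hμ] at h1 h2
  have hsub : cls (ZE d (S ∪ S') bs fun _ => True) 0 (N + 1) 0 1 0 ⊆
      (cls (ZE d S bs E) 0 (N + 1) 0 1 0 ∪ cls (ZE d S' bs E) 0 (N + 1) 0 1 0) ∪
        cls (ZE d (S ∪ S') bs fun l => ¬ E l) 0 (N + 1) 0 1 0 := by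
    intro x hx
    rw [mem_cls] at hx
    rw [mem_union, mem_union, mem_cls, mem_cls, mem_cls]
    obtain ⟨h1, h2, ⟨h3, _⟩, h4⟩ := hx
    by_cases hEx : E (stf bs fun j => ex d ((Sy d)^[j] x))
    · rcases h3 with h3 | h3
      · exact Or.inl (Or.inl ⟨h1, h2, ⟨h3, hEx⟩, h4⟩)
      · exact Or.inl (Or.inr ⟨h1, h2, ⟨h3, hEx⟩, h4⟩)
    · exact Or.inr ⟨h1, h2, ⟨h3, hEx⟩, h4⟩
  have h5 : ((cls (ZE d (S ∪ S') bs fun _ => True) 0 (N + 1) 0 1 0).card : ℝ) ≤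
      (cls (ZE d S bs E) 0 (N + 1) 0 1 0).card + (cls (ZE d S' bs E) 0 (N + 1) 0 1 0).card +
        (cls (ZE d (S ∪ S') bs fun l => ¬ E l) 0 (N + 1) 0 1 0).card := by
    have h6 := (card_le_card hsub).trans ((card_union_le _ _).trans
      (Nat.add_le_add_right (card_union_le _ _) _))
    exact_mod_cast h6
  rw [abs_le]
  constructor <;> nlinarith

end Pool.Agent.TH977.IP
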