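import Pool.Agent.H55.G.R_seed8.TH977.IP.Count
import Pool.Agent.H55.G.R_seed8.TH977.IP.Hit
import Pool.Agent.H33.G.R_seed8.H499R2.CL.O4

/-! The laws for the `3x+1` map. -/

set_option autoImplicit false

namespace Pool.Agent.TH977.IP

open Pool.Agent.H320R2.PD Pool.Agent.H499R2.ND Finset Filter Topology

open Pool.Agent.H319R2.Lln (mu)

/-- odd elements of an invariant set -/
theorem odd_G {d : ℤ} {S : Set ℤ} (hS : Inv d S) {X : ℝ} (hX : 0 < X) :
    ((cls S 0 X 0 1 0).card : ℝ) = G S X - G S (X / 2) := by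
  classical
  unfold G
  have hun : pos S X = cls S 0 X 0 1 0 ∪ (pos S (X / 2)).image (fun x => 2 * x) := by
    ext x
    rw [mem_union, mem_pos, mem_cls, mem_image]
    constructor
    · rintro ⟨⟨h1, h2⟩, h3⟩
      rcases Int.even_or_odd x with he | ho
      · right
        obtain ⟨t, ht⟩ := he
        have hx2 : x = 2 * t := by omega
        refine ⟨t, ?_, hx2.symm⟩
        rw [mem_pos]
        subst hx2
        push_cast at h2
        exact ⟨⟨by omega, by linarith⟩, (hS.two t).1 h3⟩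
      · left
        have h4 : (0 : ℝ) ≤ x := by
          have : (0 : ℤ) ≤ x := by omega
          exact_mod_cast this
        exact ⟨⟨h4, h2⟩, ho, h3, by simp⟩
    · rintro (⟨⟨h1, h2⟩, ho, hxS, _⟩ | ⟨t, ht, rfl⟩)
      · have h3 : (0 : ℤ) ≤ x := by exact_mod_cast h1
        obtain ⟨s, hs⟩ := ho
        exact ⟨⟨by omega, h2⟩, hxS⟩
      · rw [mem_pos] at ht
        refine ⟨⟨by omega, ?_⟩, (hS.two t).2 ht.2⟩
        push_cast
        linarith [ht.1.2]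
  have hdisj : Disjoint (cls S 0 X 0 1 0) ((pos S (X / 2)).image (fun x => 2 * x)) := by
    rw [Finset.disjoint_left]
    intro x hx hx'
    rw [mem_cls] at hx
    rw [mem_image] at hx'
    obtain ⟨t, _, rfl⟩ := hx'
    have := hx.2.1
    rw [← Int.not_even_iff_odd] at this
    exact this (even_two_mul t)
  rw [hun, card_union_of_disjoint hdisj, card_image_of_injective _ (fun x y h => by
    have : 2 * x = 2 * y := h
    omega)]
  push_cast
  ring

theorem odd_count {d : ℤ} {S : Set ℤ} (hS : Inv d S) {δ : ℝ}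
    (hδ : Tendsto (fun X : ℝ => G S X / X) atTop (𝓝 δ)) {ε : ℝ} (hε : 0 < ε) : ∃ N0 : ℕ, ∀ N : ℕ, N0 ≤ N →
      (δ / 2 - ε) * N ≤ ((cls S 0 (N + 1) 0 1 0).card : ℝ) := by
  have t1 : Tendsto (fun X : ℝ => (G S X - G S (X / 2)) / X) atTop (𝓝 (δ - δ / 2)) := by
    have t2 : Tendsto (fun X : ℝ => G S (X / 2) / (X / 2) / 2) atTop (𝓝 (δ / 2)) :=
      (hδ.comp (tendsto_id.atTop_div_const (by norm_num : (0 : ℝ) < 2))).div_const 2
    refine (hδ.sub t2).congr' ?_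
    filter_upwards [eventually_gt_atTop 0] with A hA
    field_simp
  have e1 : ∀ᶠ X : ℝ in atTop, δ / 2 - ε < (G S X - G S (X / 2)) / X := by
    refine (tendsto_order.1 t1).1 _ ?_
    linarith
  obtain ⟨X1, hX1⟩ := eventually_atTop.1 (e1.and (eventually_gt_atTop 0))
  refine ⟨⌈X1⌉₊, fun N hN => ?_⟩
  have hNX : X1 ≤ (N : ℝ) + 1 := by
    have : X1 ≤ N := (Nat.le_ceil _).trans (by exact_mod_cast hN)
    linarith
  obtain ⟨h1, h2⟩ := hX1 _ hNX
  rw [odd_G hS h2]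
  rw [lt_div_iff₀ h2] at h1
  rcases le_or_gt 0 (δ / 2 - ε) with h3 | h3
  · nlinarith
  · have h4 : (δ / 2 - ε) * N ≤ 0 := mul_nonpos_of_nonpos_of_nonneg h3.le (Nat.cast_nonneg _)
    have h5 : (0 : ℝ) ≤ ((cls S 0 (N + 1) 0 1 0).card : ℝ) := Nat.cast_nonneg _
    rw [odd_G hS h2] at h5
    linarith

/-- in an invariant set the last condition is the first -/
theorem ZE_inv {d : ℤ} (hd : Odd d) (hd3 : IsCoprime d 3) {S : Set ℤ} (hS : Inv d S) {M : ℤ} (hM : Odd M)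
    (k : ℕ) : (Sy d)^[k] M ∈ S ↔ M ∈ S := by
  constructor
  · intro h
    by_contra hcon
    exact (iter_mem hd hd3 hS.compl.fwd hM hcon k).2 h
  · intro h
    exact (iter_mem hd hd3 hS.fwd hM h k).2

/-- from a bound at all large scales to the hypothesis of `law` -/
theorem PB_all {κ : ℝ} (hκ : 0 < κ) {S : Set ℤ} {ρ A0 : ℝ} (hA0 : 0 < A0)
    (h : ∀ A : ℝ, A0 ≤ A → ∀ m : ℕ, (m : ℝ) ^ 2 ≤ Real.log A → PB S A m ρ) : ∃ N0 : ℕ, ∀ N : ℕ, N0 ≤ N →
    ∀ A : ℝ, 0 < A → κ * Real.log N / 2 ≤ Real.log A → ∀ m : ℕ, (m : ℝ) ^ 2 ≤ Real.log A → PB S A m ρ := by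
  refine ⟨max 1 ⌈Real.exp (2 * Real.log A0 / κ)⌉₊, fun N hN A hA hL m hm => h A ?_ m hm⟩
  have hN1 : (1 : ℝ) ≤ N := by exact_mod_cast (le_max_left _ _).trans hN
  have h1 : Real.exp (2 * Real.log A0 / κ) ≤ N :=
    (Nat.le_ceil _).trans (by exact_mod_cast (le_max_right _ _).trans hN)
  have h2 : 2 * Real.log A0 / κ ≤ Real.log N := (Real.le_log_iff_exp_le (by linarith)).2 h1
  rw [div_le_iff₀ hκ] at h2
  exact (Real.log_le_log_iff hA0 hA).1 (by linarith)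

/-- the law of the block sums in an invariant set -/
theorem inv_law {S : Set ℤ} (hS : Inv 1 S) {δ : ℝ} (hδ0 : 0 ≤ δ) (hδ1 : δ ≤ 1)
    (hδ : Tendsto (fun X : ℝ => G S X / X) atTop (𝓝 δ)) {κ : ℝ} (hκ : 0 < κ) (hκ1 : κ ≤ 1) {ε : ℝ}
    (hε : 0 < ε) : ∃ N0 : ℕ, ∀ N : ℕ, N0 ≤ N → ∀ bs : List ℕ, (∀ b ∈ bs, κ * Real.log N ≤ b) →
    ((bs.sum : ℕ) : ℝ) ≤ (1 - κ) * Real.log N / (2 * mu) →
    ∀ E : List ℕ → Prop, MeasurableSet {ω : ℕ → ℕ | E (stf bs fun j => ω j + 1)} →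
      |((cls (ZE 1 S bs E) 0 (N + 1) 0 1 0).card : ℝ) -
        δ / 2 * TJ.PP.real {ω : ℕ → ℕ | E (stf bs fun j => ω j + 1)} * N| ≤ ε * N := by
  set η : ℝ := min 1 (ε / 8) with hη
  have hη0 : 0 < η := lt_min one_pos (by positivity)
  have hη1 : η ≤ 1 := min_le_left _ _
  have hη8 : η ≤ ε / 8 := min_le_right _ _
  obtain ⟨N1, h1⟩ := law hκ hκ1 hη0
  obtain ⟨A0, hA0, hPB⟩ := class_bound hS hδ hη0
  obtain ⟨N2, h2⟩ := PB_all hκ hA0 hPB
  obtain ⟨N3, h3⟩ := odd_count hS hδ (show 0 < η / 2 by positivity)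
  refine ⟨max (max N1 N2) N3, fun N hN bs hbs hsum E hE => ?_⟩
  have hNN1 : N1 ≤ N := ((le_max_left _ _).trans (le_max_left _ _)).trans hN
  have hNN2 : N2 ≤ N := ((le_max_right _ _).trans (le_max_left _ _)).trans hN
  have hNN3 : N3 ≤ N := (le_max_right _ _).trans hN
  have hd : |((1 : ℤ) : ℝ)| ≤ Real.exp (κ * Real.log N / 20) := by
    rw [Int.cast_one, abs_one]
    apply Real.one_le_exp
    have : 0 ≤ Real.log N := Real.log_natCast_nonneg N
    positivity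
  have hcount : ((δ + η + 0) / 2 - η) * N ≤
      ((cls (ZE 1 (S ∪ ∅) bs fun _ => True) 0 (N + 1) 0 1 0).card : ℝ) := by
    have h4 := h3 N hNN3
    have hsub : cls S 0 (N + 1) 0 1 0 ⊆ cls (ZE 1 (S ∪ ∅) bs fun _ => True) 0 (N + 1) 0 1 0 := by
      intro x hx
      rw [mem_cls] at hx ⊢
      refine ⟨hx.1, hx.2.1, ⟨Or.inl ?_, trivial⟩, hx.2.2.2⟩
      exact (ZE_inv odd_one isCoprime_one_left hS hx.2.1 _).2 hx.2.2.1
    have h5 : ((cls S 0 (N + 1) 0 1 0).card : ℝ) ≤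
        ((cls (ZE 1 (S ∪ ∅) bs fun _ => True) 0 (N + 1) 0 1 0).card : ℝ) := by
      exact_mod_cast card_le_card hsub
    refine le_trans (le_of_eq ?_) (h4.trans h5)
    ring
  have h6 := h1 N hNN1 1 odd_one isCoprime_one_left hd S ∅ (δ + η) 0 (by positivity) le_rfl
    (by linarith) (h2 N hNN2) (by
      intro A hA _ m _ u v _
      have : cls ∅ A (2 * A) m u v = ∅ := by
        ext x
        rw [mem_cls]
        simp
      rw [this]
      simp) bs hbs hsum hcount E hE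
  set μ : ℝ := TJ.PP.real {ω : ℕ → ℕ | E (stf bs fun j => ω j + 1)} with hμ
  have hμ0 : 0 ≤ μ := MeasureTheory.measureReal_nonneg
  have hμ1 : μ ≤ 1 := MeasureTheory.measureReal_le_one
  have hN0 : (0 : ℝ) ≤ N := Nat.cast_nonneg _
  have h7 : 0 ≤ η / 2 * μ * N := by positivity
  have h8 : η / 2 * μ * N ≤ η / 2 * N := by
    have : η / 2 * μ ≤ η / 2 * 1 := mul_le_mul_of_nonneg_left hμ1 (by positivity)
    nlinarith
  have h9 : η * N ≤ ε / 8 * N := mul_le_mul_of_nonneg_right hη8 hN0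
  have h10 := abs_le.1 h6
  rw [abs_le]
  constructor <;> nlinarith [h10.1, h10.2]

/-- the joint law of the block sums and of the remaining time -/
theorem hit_law {δ : ℝ} (hδ : Dn (Cn 1) δ) (hδ1 : δ ≤ 1) (z : ℝ) {κ : ℝ} (hκ : 0 < κ) (hκ1 : κ ≤ 1)
    {ε : ℝ} (hε : 0 < ε) : ∃ N0 : ℕ, ∀ N : ℕ, N0 ≤ N → ∀ bs : List ℕ, (∀ b ∈ bs, κ * Real.log N ≤ b) →
    ((bs.sum : ℕ) : ℝ) ≤ (1 - κ) * Real.log N / (2 * mu) →
    ∀ E : List ℕ → Prop, MeasurableSet {ω : ℕ → ℕ | E (stf bs fun j => ω j + 1)} →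
      |((cls (ZE 1 (Rone z) bs E) 0 (N + 1) 0 1 0).card : ℝ) -
        δ / 2 * Phi z * TJ.PP.real {ω : ℕ → ℕ | E (stf bs fun j => ω j + 1)} * N| ≤ ε * N := by
  have hδ0 := dn_nonneg hδ
  set η : ℝ := min (1 / 2) (ε / 16) with hη
  have hη0 : 0 < η := lt_min (by norm_num) (by positivity)
  have hη1 : η ≤ 1 / 2 := min_le_left _ _
  have hη8 : η ≤ ε / 16 := min_le_right _ _
  have hP0 := M_Phi_nonneg z
  have hP1 := M_Phi_le_one z
  obtain ⟨N1, h1⟩ := law hκ hκ1 (show 0 < 2 * η by positivity)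
  obtain ⟨A0, hA0, hPB⟩ := Rone_PB hδ z hη0
  obtain ⟨N2, h2⟩ := PB_all hκ hA0 hPB
  obtain ⟨A0', hA0', hPB'⟩ := Rone_PB' hδ z hη0
  obtain ⟨N2', h2'⟩ := PB_all hκ hA0' hPB'
  have hSi : Inv 1 (NS (Cn 1)) := NS_inv (fun n _ => Cn_inv 1 n)
  have hG : Tendsto (fun X : ℝ => G (NS (Cn 1)) X / X) atTop (𝓝 δ) := by
    obtain ⟨l, _, _, hl⟩ := dens_side odd_one isCoprime_one_left (Or.inl rfl) hSi
    have h1 : Tendsto (fun N : ℕ => cnt (Cn 1) N / N) atTop (𝓝 l) := by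
      refine (HD_ncard (Or.inl rfl) hl).congr fun N => ?_
      rw [NS_ncard]; rfl
    have h2 : l = δ := tendsto_nhds_unique h1 hδ
    rw [h2] at hl
    unfold HD at hl
    simpa only [one_mul, Set.setOf_mem_eq] using hl
  obtain ⟨N3, h3⟩ := odd_count hSi hG (show 0 < η / 2 by positivity)
  refine ⟨max (max (max N1 N2) N2') N3, fun N hN bs hbs hsum E hE => ?_⟩
  have hNN1 : N1 ≤ N := (((le_max_left _ _).trans (le_max_left _ _)).trans (le_max_left _ _)).trans hN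
  have hNN2 : N2 ≤ N := (((le_max_right _ _).trans (le_max_left _ _)).trans (le_max_left _ _)).trans hN
  have hNN2' : N2' ≤ N := ((le_max_right _ _).trans (le_max_left _ _)).trans hN
  have hNN3 : N3 ≤ N := (le_max_right _ _).trans hN
  have hd : |((1 : ℤ) : ℝ)| ≤ Real.exp (κ * Real.log N / 20) := by
    rw [Int.cast_one, abs_one]
    apply Real.one_le_exp
    have : 0 ≤ Real.log N := Real.log_natCast_nonneg N
    positivity
  have hcount : ((δ * Phi z + η + (δ * (1 - Phi z) + η)) / 2 - 2 * η) * N ≤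
      ((cls (ZE 1 (Rone z ∪ (Me (orb 1) \ Rone z)) bs fun _ => True) 0 (N + 1) 0 1 0).card : ℝ) := by
    have h4 := h3 N hNN3
    have hsub : cls (NS (Cn 1)) 0 (N + 1) 0 1 0 ⊆
        cls (ZE 1 (Rone z ∪ (Me (orb 1) \ Rone z)) bs fun _ => True) 0 (N + 1) 0 1 0 := by
      intro x hx
      rw [mem_cls] at hx ⊢
      refine ⟨hx.1, hx.2.1, ⟨?_, trivial⟩, hx.2.2.2⟩
      have h5 := (ZE_inv odd_one isCoprime_one_left hSi hx.2.1 bs.sum).2 hx.2.2.1
      rw [← Me_orb] at h5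
      by_cases h6 : (Sy 1)^[bs.sum] x ∈ Rone z
      · exact Or.inl h6
      · exact Or.inr ⟨h5, h6⟩
    have h5 : ((cls (NS (Cn 1)) 0 (N + 1) 0 1 0).card : ℝ) ≤
        ((cls (ZE 1 (Rone z ∪ (Me (orb 1) \ Rone z)) bs fun _ => True) 0 (N + 1) 0 1 0).card : ℝ) := by
      exact_mod_cast card_le_card hsub
    refine le_trans ?_ (h4.trans h5)
    apply mul_le_mul_of_nonneg_right _ (Nat.cast_nonneg _)
    linarith
  have hρ : 0 ≤ δ * Phi z + η := by positivity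
  have hρ' : 0 ≤ δ * (1 - Phi z) + η := by
    have : 0 ≤ δ * (1 - Phi z) := mul_nonneg hδ0 (by linarith)
    linarith
  have h6 := h1 N hNN1 1 odd_one isCoprime_one_left hd (Rone z) (Me (orb 1) \ Rone z)
    (δ * Phi z + η) (δ * (1 - Phi z) + η) hρ hρ' (by linarith) (h2 N hNN2) (h2' N hNN2') bs hbs hsum
    hcount E hE
  set μ : ℝ := TJ.PP.real {ω : ℕ → ℕ | E (stf bs fun j => ω j + 1)} with hμ
  have hμ0 : 0 ≤ μ := MeasureTheory.measureReal_nonneg
  have hμ1 : μ ≤ 1 := MeasureTheory.measureReal_le_one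
  have hN0 : (0 : ℝ) ≤ N := Nat.cast_nonneg _
  have h7 : 0 ≤ η / 2 * μ * N := by positivity
  have h8 : η / 2 * μ * N ≤ η / 2 * N := by
    have : η / 2 * μ ≤ η / 2 * 1 := mul_le_mul_of_nonneg_left hμ1 (by positivity)
    nlinarith
  have h9 : η * N ≤ ε / 16 * N := mul_le_mul_of_nonneg_right hη8 hN0
  have h10 := abs_le.1 h6
  have e1 : (δ * Phi z + η) / 2 * μ * N = δ / 2 * Phi z * μ * N + η / 2 * μ * N := by ring
  rw [e1] at h10
  rw [abs_le]
  constructor <;> linarith [h10.1, h10.2]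

end Pool.Agent.TH977.IP
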