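import Pool.Agent.H55.G.R_seed8.TH977.IP.Core
import Pool.Agent.H33.G.R_seed8.H499R2.CL.M1

/-! Good lists of lengths. -/

set_option autoImplicit false

namespace Pool.Agent.TH977.IP

open Pool.Agent.H320R2.PD Pool.Agent.H499R2.ND Finset Filter Topology

open Pool.Agent.H319R2.Lln (mu)

theorem key_size {κ L : ℝ} (hκ : 0 < κ) (hκ1 : κ ≤ 1) (hL : 0 < L) {N : ℕ} (hN : 30 / κ ≤ N)
    {D : ℕ} {x : ℝ} (hD : (D : ℝ) ≤ (1 - κ) * L / (2 * mu))
    (hx : |x - (L - 2 * mu * D)| ≤ κ * L / 8 + D / N) : 3 / 4 * κ * L ≤ x ∧ x ≤ 2 * L := by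
  obtain ⟨hmu1, hmu2⟩ := mu_bounds
  have hmu : 0 < mu := by linarith
  have hN0 : (0 : ℝ) < N := lt_of_lt_of_le (by positivity) hN
  have h1 : 2 * mu * D ≤ (1 - κ) * L := by
    rw [le_div_iff₀ (by positivity)] at hD
    linarith
  have hD0 : (0 : ℝ) ≤ D := Nat.cast_nonneg D
  have h2 : 0.28 * (D : ℝ) ≤ L := by
    have h3 : 0.28 * (D : ℝ) ≤ 2 * mu * D := mul_le_mul_of_nonneg_right (by linarith) hD0
    nlinarith
  have h3 : (D : ℝ) / N ≤ κ * L / 8 := by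
    rw [div_le_iff₀ hN0]
    rw [div_le_iff₀ hκ] at hN
    have h4 : κ * L / 8 * N = L / 8 * (N * κ) := by ring
    rw [h4]
    have h5 : L / 8 * 30 ≤ L / 8 * (N * κ) := mul_le_mul_of_nonneg_left hN (by positivity)
    linarith
  obtain ⟨h4, h5⟩ := abs_le.1 hx
  have h6 : 0 ≤ 2 * mu * (D : ℝ) := by positivity
  have h7 : κ * L ≤ L := by nlinarith
  constructor <;> linarith

theorem gk_list {κ κ0 L : ℝ} (hκ : 0 < κ) (hκ1 : κ ≤ 1) (hκ0 : 0 < κ0) (hL : 0 < L) {N : ℕ}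
    (hN : 30 / κ ≤ N) {d : ℤ} (hd : |(d : ℝ)| ≤ Real.exp (κ * L / 20)) {L1 : ℝ} (hL1 : L1 ≤ κ * L / 2)
    (ks : List ℕ) : ∀ (D : ℕ) (A : ℝ), 0 < A → (∀ k ∈ ks, 2 * κ0 * L ≤ k ∧ (k : ℝ) ≤ κ * L / 8) →
      (D : ℝ) + (ks.sum : ℕ) ≤ (1 - κ) * L / (2 * mu) →
      |Real.log A - (L - 2 * mu * D)| ≤ κ * L / 8 + D / N →
      Gk d κ0 (fun A' => κ * L / 2 ≤ Real.log A') N L1 ks A := by
  have hN0 : (0 : ℝ) < N := lt_of_lt_of_le (by positivity) hN
  induction ks with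
  | nil =>
    intro D A hA _ hD hlog
    simp only [List.sum_nil, Nat.cast_zero, add_zero] at hD
    obtain ⟨h1, _⟩ := key_size hκ hκ1 hL hN hD hlog
    show κ * L / 2 ≤ Real.log A
    nlinarith
  | cons k ks ih =>
    intro D A hA hks hD hlog
    rw [List.sum_cons, Nat.cast_add] at hD
    have hs0 : (0 : ℝ) ≤ (ks.sum : ℕ) := Nat.cast_nonneg _
    have hk0 : (0 : ℝ) ≤ (k : ℝ) := Nat.cast_nonneg _
    obtain ⟨h1, h2⟩ := key_size hκ hκ1 hL hN (D := D) (by linarith) hlog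
    obtain ⟨h3, h4⟩ := hks k (by simp)
    have hκL : 0 < κ * L := by positivity
    refine ⟨by linarith, hd.trans (Real.exp_le_exp.2 (by linarith)), ?_, by linarith, ?_⟩
    · have := mul_le_mul_of_nonneg_left h2 hκ0.le
      linarith
    · intro T hT
      refine ih (D + k) _ (by positivity) (fun k' hk' => hks k' (by simp [hk'])) ?_ ?_
      · rw [Nat.cast_add]
        linarith
      · rw [log_nextL hA]
        have hlog2 : 0 < Real.log 2 := Real.log_pos (by norm_num)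
        have hlog2' : Real.log 2 < 1 := by
          have := Real.log_two_lt_d9
          linarith
        have hT2 : |(T : ℝ) - 2 * k| ≤ k / N := by
          rw [le_div_iff₀ hN0]
          linarith
        have hT3 : |((T : ℝ) - 2 * k) * Real.log 2| ≤ k / N := by
          rw [abs_mul, abs_of_pos hlog2]
          have := abs_nonneg ((T : ℝ) - 2 * k)
          nlinarith
        have hT4 := abs_le.mp hT3
        have h' := abs_le.mp hlog
        have e : ((D + k : ℕ) : ℝ) / N = D / N + k / N := by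
          push_cast
          ring
        rw [e]
        push_cast
        rw [abs_le]
        constructor <;> linarith [h'.1, h'.2, hT4.1, hT4.2]

theorem parts_bd {κ L : ℝ} (hκ : 0 < κ) {p : ℕ} (hp : 64 / κ ≤ p) (hL : 16 * p / κ ≤ L) {b : ℕ}
    (hb1 : κ * L ≤ b) (hb2 : (b : ℝ) ≤ 4 * L) {k : ℕ} (hk1 : b / p ≤ k) (hk2 : k ≤ b / p + b % p) :
    2 * (κ / (4 * p)) * L ≤ k ∧ (k : ℝ) ≤ κ * L / 8 := by
  have hp0 : (0 : ℝ) < p := lt_of_lt_of_le (by positivity) hp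
  have hp0N : 0 < p := by exact_mod_cast hp0
  rw [div_le_iff₀ hκ] at hp hL
  have hk1R : ((b / p : ℕ) : ℝ) ≤ k := by exact_mod_cast hk1
  have hk2R : (k : ℝ) ≤ ((b / p : ℕ) : ℝ) + ((b % p : ℕ) : ℝ) := by exact_mod_cast hk2
  have h1 : (b : ℝ) < p * (((b / p : ℕ) : ℝ) + 1) := by
    exact_mod_cast Nat.lt_mul_div_succ b hp0N
  have h2 : ((b / p : ℕ) : ℝ) ≤ (b : ℝ) / p := Nat.cast_div_le
  have h3 : ((b % p : ℕ) : ℝ) ≤ p := by exact_mod_cast (Nat.mod_lt b hp0N).le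
  have hL0 : 0 < L := by
    by_contra hcon
    push Not at hcon
    nlinarith
  constructor
  · have e : 2 * (κ / (4 * p)) * L = κ * L / (2 * p) := by field_simp; ring
    rw [e, div_le_iff₀ (by positivity)]
    nlinarith
  · have h4 : (b : ℝ) / p ≤ κ * L / 16 := by
      rw [div_le_iff₀ hp0]
      nlinarith
    nlinarith

end Pool.Agent.TH977.IP
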