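import Mathlib

/-! Sums of a sequence over consecutive blocks, and their refinement. -/

set_option autoImplicit false

namespace Pool.Agent.TH977.IP

open Finset

/-- the sums of `a` over consecutive blocks of the given lengths -/
def stf : List ℕ → (ℕ → ℕ) → List ℕ
  | [], _ => []
  | k :: ks, a => (∑ j ∈ range k, a j) :: stf ks (fun j => a (k + j))

theorem stf_length (ks : List ℕ) : ∀ a : ℕ → ℕ, (stf ks a).length = ks.length := by
  induction ks with
  | nil => intro a; rfl
  | cons k ks ih => intro a; simp [stf, ih]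

theorem stf_congr (ks : List ℕ) : ∀ a b : ℕ → ℕ, (∀ j < ks.sum, a j = b j) → stf ks a = stf ks b := by
  induction ks with
  | nil => intro a b _; rfl
  | cons k ks ih =>
    intro a b h
    rw [List.sum_cons] at h
    unfold stf
    rw [ih (fun j => a (k + j)) (fun j => b (k + j)) (fun j hj => h (k + j) (by omega))]
    congr 1
    exact sum_congr rfl fun j hj => h j (by have := mem_range.1 hj; omega)

theorem stf_append (k1 k2 : List ℕ) : ∀ a : ℕ → ℕ,
    stf (k1 ++ k2) a = stf k1 a ++ stf k2 (fun j => a (k1.sum + j)) := by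
  induction k1 with
  | nil => intro a; simp [stf]
  | cons k ks ih =>
    intro a
    rw [List.cons_append, List.sum_cons]
    simp only [stf]
    rw [ih, List.cons_append]
    simp only [add_assoc]

theorem stf_sum (ks : List ℕ) : ∀ a : ℕ → ℕ, (stf ks a).sum = ∑ j ∈ range ks.sum, a j := by
  induction ks with
  | nil => intro a; simp [stf]
  | cons k ks ih =>
    intro a
    simp only [stf, List.sum_cons]
    rw [ih, Finset.sum_range_add]

/-- a block cut into `p` parts of almost equal lengths -/
def parts (p b : ℕ) : List ℕ := (b / p + b % p) :: List.replicate (p - 1) (b / p)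

theorem parts_length {p : ℕ} (hp : 1 ≤ p) (b : ℕ) : (parts p b).length = p := by
  unfold parts
  rw [List.length_cons, List.length_replicate]
  omega

theorem parts_sum {p : ℕ} (hp : 1 ≤ p) (b : ℕ) : (parts p b).sum = b := by
  unfold parts
  rw [List.sum_cons, List.sum_replicate, smul_eq_mul]
  obtain ⟨q, rfl⟩ : ∃ q, p = q + 1 := ⟨p - 1, by omega⟩
  have h := Nat.div_add_mod b (q + 1)
  rw [Nat.add_sub_cancel]
  calc b / (q + 1) + b % (q + 1) + q * (b / (q + 1)) = (q + 1) * (b / (q + 1)) + b % (q + 1) := by ring
    _ = b := h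

/-- the first `r` sums of `p` consecutive elements -/
def mg (p : ℕ) : ℕ → List ℕ → List ℕ
  | 0, _ => []
  | r + 1, l => (l.take p).sum :: mg p r (l.drop p)

theorem mg_stf {p : ℕ} (hp : 1 ≤ p) (bs : List ℕ) : ∀ a : ℕ → ℕ,
    mg p bs.length (stf (bs.flatMap (parts p)) a) = stf bs a := by
  induction bs with
  | nil => intro a; rfl
  | cons b bs ih =>
    intro a
    rw [List.flatMap_cons, List.length_cons, stf_append, parts_sum hp]
    have hl : (stf (parts p b) a).length = p := by rw [stf_length, parts_length hp]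
    simp only [mg, stf]
    rw [List.take_append_of_le_length hl.ge, List.take_of_length_le hl.le, stf_sum, parts_sum hp,
      List.drop_append_of_le_length hl.ge, List.drop_of_length_le hl.le, List.nil_append, ih]

theorem flat_sum {p : ℕ} (hp : 1 ≤ p) (bs : List ℕ) : (bs.flatMap (parts p)).sum = bs.sum := by
  induction bs with
  | nil => rfl
  | cons b bs ih => rw [List.flatMap_cons, List.sum_append, List.sum_cons, ih, parts_sum hp]

theorem flat_length {p : ℕ} (hp : 1 ≤ p) (bs : List ℕ) : (bs.flatMap (parts p)).length = p * bs.length := by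
  induction bs with
  | nil => rfl
  | cons b bs ih =>
    rw [List.flatMap_cons, List.length_append, List.length_cons, ih, parts_length hp]
    ring

theorem mem_flat {p : ℕ} {bs : List ℕ} {k : ℕ} (h : k ∈ bs.flatMap (parts p)) :
    ∃ b ∈ bs, b / p ≤ k ∧ k ≤ b / p + b % p := by
  rw [List.mem_flatMap] at h
  obtain ⟨b, hb, hk⟩ := h
  refine ⟨b, hb, ?_⟩
  unfold parts at hk
  rw [List.mem_cons, List.mem_replicate] at hk
  omega

/-- the blocks with boundaries `K 0 = 0, K 1, ..., K r` -/
theorem stf_ofFn (a : ℕ → ℕ) : ∀ (r : ℕ) (K : ℕ → ℕ), (∀ i < r, K i ≤ K (i + 1)) →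
    stf (List.ofFn fun i : Fin r => K (i + 1) - K i) (fun j => a (K 0 + j)) =
      List.ofFn fun i : Fin r => ∑ j ∈ Ico (K i) (K (i + 1)), a j := by
  intro r
  induction r with
  | zero => intro K _; rfl
  | succ r ih =>
    intro K hK
    rw [List.ofFn_succ, List.ofFn_succ]
    simp only [stf, Fin.val_zero, Fin.val_succ, zero_add]
    have h0 := hK 0 (by omega)
    rw [zero_add] at h0
    have e1 : ∑ j ∈ range (K 1 - K 0), a (K 0 + j) = ∑ j ∈ Ico (K 0) (K 1), a j :=
      (Finset.sum_Ico_eq_sum_range a (K 0) (K 1)).symm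
    rw [e1]
    congr 1
    have e2 := ih (fun i => K (i + 1)) (fun i hi => hK (i + 1) (by omega))
    simp only [zero_add] at e2
    rw [← e2]
    congr 1
    funext j
    congr 1
    omega

theorem ofFn_sum : ∀ (r : ℕ) (K : ℕ → ℕ), (∀ i < r, K i ≤ K (i + 1)) →
    (List.ofFn fun i : Fin r => K (i + 1) - K i).sum + K 0 = K r := by
  intro r
  induction r with
  | zero => intro K _; simp
  | succ r ih =>
    intro K hK
    rw [List.ofFn_succ, List.sum_cons]
    simp only [Fin.val_zero, Fin.val_succ, zero_add]
    have h0 := hK 0 (by omega)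
    rw [zero_add] at h0
    have e2 := ih (fun i => K (i + 1)) (fun i hi => hK (i + 1) (by omega))
    simp only [zero_add] at e2
    omega

end Pool.Agent.TH977.IP
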