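import Pool.Agent.H55.G.R_seed8.TH977.IP.Word
import Pool.Agent.H55.G.R_seed8.TH977.IP.Lists

/-! The upper bound in windows. -/

set_option autoImplicit false

namespace Pool.Agent.TH977.IP

open Pool.Agent.H320R2.PD Pool.Agent.H499R2.ND Finset Filter Topology

open Pool.Agent.H319R2.Lln (mu)

/-- the starting points whose blocks have sums with the property `E` and for which the iterate after the
last block is in `S` -/
def ZE (d : ℤ) (S : Set ℤ) (bs : List ℕ) (E : List ℕ → Prop) : Set ℤ :=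
  {M : ℤ | (Sy d)^[bs.sum] M ∈ S ∧ E (stf bs fun j => ex d ((Sy d)^[j] M))}

theorem len_bd {κ L : ℝ} (hκ : 0 < κ) (hκ1 : κ ≤ 1) (hL : 0 < L) {bs : List ℕ} (hbs : ∀ b ∈ bs, κ * L ≤ b)
    (hsum : ((bs.sum : ℕ) : ℝ) ≤ (1 - κ) * L / (2 * mu)) :
    (bs.length : ℝ) ≤ 4 / κ ∧ ((bs.sum : ℕ) : ℝ) ≤ 4 * L := by
  obtain ⟨hmu1, hmu2⟩ := mu_bounds
  have hmu : 0 < mu := by linarith
  have h1 : (bs.length : ℝ) * (κ * L) ≤ ((bs.sum : ℕ) : ℝ) := by
    clear hsum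
    induction bs with
    | nil => simp
    | cons b bs ih =>
      rw [List.length_cons, List.sum_cons]
      have h2 := ih (fun b' hb' => hbs b' (by simp [hb']))
      have h3 := hbs b (by simp)
      rw [Nat.cast_add, Nat.cast_add, Nat.cast_one]
      linarith
  have h2 : ((bs.sum : ℕ) : ℝ) ≤ 4 * L := by
    refine hsum.trans ?_
    rw [div_le_iff₀ (by positivity)]
    nlinarith
  refine ⟨?_, h2⟩
  rw [le_div_iff₀ hκ]
  nlinarith

theorem upper {κ : ℝ} (hκ : 0 < κ) (hκ1 : κ ≤ 1) {ε : ℝ} (hε : 0 < ε) : ∃ L0 : ℝ, 0 < L0 ∧ ∀ L : ℝ, L0 ≤ L →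
    ∀ d : ℤ, Odd d → IsCoprime d 3 → |(d : ℝ)| ≤ Real.exp (κ * L / 20) → ∀ (S : Set ℤ) (ρ : ℝ), 0 ≤ ρ →
    (∀ A : ℝ, 0 < A → κ * L / 2 ≤ Real.log A → ∀ m : ℕ, (m : ℝ) ^ 2 ≤ Real.log A → PB S A m ρ) →
    ∀ bs : List ℕ, (∀ b ∈ bs, κ * L ≤ b) → ((bs.sum : ℕ) : ℝ) ≤ (1 - κ) * L / (2 * mu) →
    ∀ (E : List ℕ → Prop) (A : ℝ), 0 < A → |Real.log A - L| ≤ κ * L / 8 →
    ∀ m : ℕ, (m : ℝ) ^ 2 ≤ Real.log A →
      PB (ZE d S bs E) A m (ρ * TJ.PP.real {ω : ℕ → ℕ | E (stf bs fun j => ω j + 1)} + ε) := by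
  obtain ⟨p, hpdef⟩ : ∃ p : ℕ, p = ⌈64 / κ⌉₊ := ⟨_, rfl⟩
  have hp : 64 / κ ≤ p := by rw [hpdef]; exact Nat.le_ceil _
  have hp0 : (0 : ℝ) < p := lt_of_lt_of_le (by positivity) hp
  have hp1 : 1 ≤ p := by
    have : 0 < p := by exact_mod_cast hp0
    omega
  set κ0 : ℝ := κ / (4 * p) with hκ0def
  have hκ0 : 0 < κ0 := by positivity
  obtain ⟨N, hNdef⟩ : ∃ N : ℕ, N = max 20 ⌈30 / κ⌉₊ := ⟨_, rfl⟩
  have hN20 : 20 ≤ N := by rw [hNdef]; exact le_max_left _ _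
  have hN : 30 / κ ≤ N := by
    refine (Nat.le_ceil _).trans ?_
    have : ⌈30 / κ⌉₊ ≤ N := by rw [hNdef]; exact le_max_right _ _
    exact_mod_cast this
  obtain ⟨J, hJdef⟩ : ∃ J : ℕ, J = p * ⌈4 / κ⌉₊ := ⟨_, rfl⟩
  obtain ⟨L1, hL1, hcomp⟩ := comp hκ0 hN20 (show 0 < ε / (J + 1) by positivity)
  refine ⟨max (max (2 * L1 / κ) (16 * p / κ)) 1, lt_max_of_lt_right one_pos, ?_⟩
  intro L hL d hd hd3 hdL S ρ hρ hPB bs hbs hsum E A hA hAL m hm
  have hLa : 2 * L1 / κ ≤ L := ((le_max_left _ _).trans (le_max_left _ _)).trans hL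
  have hLb : 16 * p / κ ≤ L := ((le_max_right _ _).trans (le_max_left _ _)).trans hL
  have hL0 : 0 < L := lt_of_lt_of_le one_pos ((le_max_right _ _).trans hL)
  have hL1' : L1 ≤ κ * L / 2 := by
    rw [div_le_iff₀ hκ] at hLa
    linarith
  obtain ⟨hlen, hsum4⟩ := len_bd hκ hκ1 hL0 hbs hsum
  set ks := bs.flatMap (parts p) with hks
  have hksum : ks.sum = bs.sum := flat_sum hp1 bs
  have hklen : ks.length = p * bs.length := flat_length hp1 bs
  have hmem : ∀ k ∈ ks, 2 * κ0 * L ≤ k ∧ (k : ℝ) ≤ κ * L / 8 := by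
    intro k hk
    obtain ⟨b, hb, h1, h2⟩ := mem_flat hk
    refine parts_bd hκ hp hLb (hbs b hb) ?_ h1 h2
    refine le_trans ?_ hsum4
    exact_mod_cast List.single_le_sum (l := bs) (fun _ _ => Nat.zero_le _) b hb
  have hG : Gk d κ0 (fun A' => κ * L / 2 ≤ Real.log A') N L1 ks A := by
    apply gk_list hκ hκ1 hκ0 hL0 hN hdL hL1' ks 0 A hA hmem
    · rw [hksum]
      simpa using hsum
    · simpa using hAL
  have h := hcomp d hd hd3 S ρ (fun A' => κ * L / 2 ≤ Real.log A') hρ hPB ks (3 * ks.sum)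
    (by
      intro k hk
      have := List.single_le_sum (l := ks) (fun _ _ => Nat.zero_le _) k hk
      omega) (fun l => E (mg p bs.length l)) A hA hG m hm
  have hsub : ∀ x : ℤ, A ≤ (x : ℝ) → (x : ℝ) < 2 * A → x ∈ ZE d S bs E →
      x ∈ SE d S ks (fun l => E (mg p bs.length l)) := by
    intro x _ _ hx
    apply mem_SE hd ks _ x
    · rw [hksum]; exact hx.1
    · show E (mg p bs.length (stf ks _))
      rw [hks, mg_stf hp1]
      exact hx.2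
  refine PB_sub hsub (PB_mono hA ?_ h)
  have h1 := WE_le (3 * ks.sum) ks (fun l => E (mg p bs.length l))
  have h2 : {ω : ℕ → ℕ | E (mg p bs.length (stf ks fun j => ω j + 1))} =
      {ω : ℕ → ℕ | E (stf bs fun j => ω j + 1)} := by
    ext ω
    rw [Set.mem_setOf_eq, Set.mem_setOf_eq, hks, mg_stf hp1]
  rw [h2] at h1
  have h3 := mul_le_mul_of_nonneg_left h1 hρ
  have h4 : (ks.length : ℝ) * (ε / (J + 1)) ≤ ε := by
    have h5 : (ks.length : ℝ) ≤ J := by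
      rw [hklen, hJdef]
      push_cast
      apply mul_le_mul_of_nonneg_left _ hp0.le
      exact hlen.trans (Nat.le_ceil _)
    have h6 : (ks.length : ℝ) * (ε / (J + 1)) ≤ J * (ε / (J + 1)) :=
      mul_le_mul_of_nonneg_right h5 (by positivity)
    have h7 : (J : ℝ) * (ε / (J + 1)) = ε * (J / (J + 1)) := by ring
    have h8 : (J : ℝ) / (J + 1) ≤ 1 := by
      rw [div_le_one (by positivity)]; linarith
    nlinarith
  linarith

end Pool.Agent.TH977.IP
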